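import Pool.Agent.H.MP_bc0aea_an.A

open Filter Topology Set Metric

namespace Pool.Agent.Results.MP_bc0aea_an.No

section
variable {E : Type} [AddCommGroup E] [Module ℂ E] [UniformSpace E]

def Analytic (D : Set ℂ) (u : ℂ → E →L[ℂ] E) : Prop :=
  (∀ x : E, DifferentiableOn ℂ (fun z => u z x) D) ∧ Equicontinuous (fun (z : D) (x : E) => u z x)

def Lifts (u : ℂ → E →L[ℂ] E) (W : Set ℂ) (g : ℂ → E) : Prop :=
  ∃ f : ℂ → E, DifferentiableOn ℂ f W ∧ ∀ z ∈ W, u z (f z) = g z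

def SheafOnto (D : Set ℂ) (u : ℂ → E →L[ℂ] E) : Prop :=
  ∀ z₀ ∈ D, ∀ V : Set ℂ, IsOpen V → z₀ ∈ V → ∀ g : ℂ → E, DifferentiableOn ℂ g V →
    ∃ W : Set ℂ, IsOpen W ∧ z₀ ∈ W ∧ W ⊆ V ∩ D ∧ Lifts u W g
end

open Pool.Agent.H.MP_bc0aea_an

theorem result : ∃ (E : Type) (_ : AddCommGroup E) (_ : Module ℂ E) (_ : UniformSpace E)
    (_ : IsUniformAddGroup E) (_ : ContinuousSMul ℂ E) (_ : CompleteSpace E)
    (_ : TopologicalSpace.MetrizableSpace E) (_ : Module ℝ E) (_ : IsScalarTower ℝ ℂ E)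
    (_ : LocallyConvexSpace ℝ E) (u : ℂ → E →L[ℂ] E),
      Analytic (ball 0 2) u ∧ SheafOnto (ball 0 2) u ∧
      ∃ g : ℂ → E, DifferentiableOn ℂ g (ball 0 2) ∧ ¬ Lifts u (ball 0 2) g := by
  let E : Type := ℕ → L
  refine ⟨E, inferInstance, inferInstance, inferInstance, inferInstance, inferInstance,
    inferInstance, inferInstance, inferInstance, inferInstance, inferInstance,
    fun z => ContinuousLinearMap.pi fun n => (ContinuousLinearMap.proj n : E →L[ℂ] L) -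
      (A (Bk 1) z).comp (ContinuousLinearMap.proj (n + 1) : E →L[ℂ] L),
    ⟨fun x => ?_, fun x₀ U hU => ?_⟩, fun z₀ hz₀ V hV hzV g hg => ?_, ?_⟩
  · refine differentiableOn_pi.2 fun n => ?_
    change DifferentiableOn ℂ (fun z : ℂ => x n - (z • x (n + 1) - Bk 1 (x (n + 1)))) _
    fun_prop
  · have hc : Continuous (Function.uncurry fun (x : E) (z : ℂ) (n : ℕ) =>
        x n - (z • x (n + 1) - Bk 1 (x (n + 1)))) := continuous_pi fun n => by
      simp only [Function.uncurry]; fun_prop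
    obtain ⟨v, hv, h⟩ := (isCompact_closedBall (0 : ℂ) 2).mem_uniformity_of_prod
      (s := univ) hc.continuousOn (mem_univ x₀) (symm_le_uniformity hU)
    rw [nhdsWithin_univ] at hv
    filter_upwards [hv] with x hx z using h x hx z (ball_subset_closedBall z.2)
  · have hg' := differentiableOn_pi.1 hg
    have key : ∀ W : Set ℂ, IsOpen W → z₀ ∈ W → W ⊆ V →
        (∀ K, IsCompact K → K ⊆ W → ∀ h : ℂ → L, DifferentiableOn ℂ h W → ∀ ε : ℝ, 0 < ε →
          ∃ f : ℂ → L, DifferentiableOn ℂ f W ∧ ∀ z ∈ K, ‖h z - A (Bk 1) z (f z)‖ ≤ ε) →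
        ∃ W : Set ℂ, IsOpen W ∧ z₀ ∈ W ∧ W ⊆ V ∩ ball 0 2 ∧ ∃ f : ℂ → E, DifferentiableOn ℂ f W ∧
          ∀ z ∈ W, (fun n => f z n - A (Bk 1) z (f z (n + 1))) = g z := by
      intro W hW hzW hWV hd
      obtain ⟨r, hr, hr2⟩ := nhds_basis_closedBall.mem_iff.1
        ((hW.inter isOpen_ball).mem_nhds ⟨hzW, hz₀⟩)
      have s1 := ball_subset_closedBall.trans hr2
      obtain ⟨f, f1, f2⟩ := ml (Bk 1) B_norm (W := W) isOpen_ball (fun z hz => (s1 hz).1)
        (fun z hz => (mem_ball_zero_iff.1 (s1 hz).2).le) (fun h hh ε hε => by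
          obtain ⟨f, a, b⟩ := hd _ (isCompact_closedBall z₀ r) (fun z hz => (hr2 hz).1) h hh ε hε
          exact ⟨f, a, fun z hz => b z (ball_subset_closedBall hz)⟩)
        (fun n z => g z n) (fun n => (hg' n).mono hWV)
      exact ⟨ball z₀ r, isOpen_ball, mem_ball_self hr, fun z hz => ⟨hWV (s1 hz).1, (s1 hz).2⟩,
        fun z n => f n z, differentiableOn_pi.2 f1, fun z hz => funext fun n => f2 n z hz⟩
    rcases eq_or_ne z₀ 0 with rfl | h0
    · exact key (V ∩ ball 0 (1 / 2)) (hV.inter isOpen_ball) ⟨hzV, mem_ball_self (by norm_num)⟩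
        inter_subset_left fun K hK hKW => dense2 (Bk 1) Sh BS1 S_norm hK hKW
          fun z hz => (mem_ball_zero_iff.1 (hKW hz).2).le
    · exact key (V ∩ {0}ᶜ) (hV.inter isOpen_compl_singleton) ⟨hzV, h0⟩ inter_subset_left
        fun K hK hKW => dense1 (Bk 1) Sh BS1 B_norm S_norm B_lim hK hKW fun h => h.2 rfl
  · refine ⟨fun _ n => (3 : ℂ) ^ n • lp.single 1 0 (1 : ℂ), differentiableOn_const _, ?_⟩
    rintro ⟨f, f1, f2⟩
    refine obs (Bk 1) B_norm (lp.single 1 0 (1 : ℂ)) (fun h => ?_) (lp.ext (funext fun i => ?_))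
      (fun n z => f z n) (differentiableOn_pi.1 f1) fun n z hz => congrFun (f2 z hz) n
    · have := congrArg (fun x : L => x 0) h
      simp at this
    · change (lp.single 1 0 (1 : ℂ) : L) (i + 1) = 0
      simp [lp.single_apply]

end Pool.Agent.Results.MP_bc0aea_an.No
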